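import Pool.Agent.H.MP_f9323a_an.A

open Finset

namespace Pool.Agent.Results.MP_f9323a_an.Yes

/-- The centered fractional average of radius `r` at `n`. -/
noncomputable def avg (β : ℝ) (f : ℤ → ℝ) (n : ℤ) (r : ℕ) : ℝ :=
  1 / (2 * r + 1 : ℝ) ^ (1 - β) * ∑ k ∈ Icc (-r : ℤ) r, |f (n + k)|

/-- The discrete centered fractional maximal function (used only where the averages are bounded). -/
noncomputable def M (β : ℝ) (f : ℤ → ℝ) (n : ℤ) : ℝ := ⨆ r : ℕ, avg β f n r

open Pool.Agent.H.MP_f9323a_an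

lemma avg_eq (β : ℝ) (f : ℤ → ℝ) (n : ℤ) :
    avg β f n = fun r : ℕ => (2 * r + 1 : ℝ) ^ (β - 1) * S (fun k => |f k|) n r := by
  ext r
  rw [avg, S, one_div, ← Real.rpow_neg (by positivity), neg_sub, sub_eq_add_neg n, ← map_add_left_Icc, sum_map]
  rfl

theorem result (β q : ℝ) (h0 : 0 < β) (h1 : β < 1) (hq : q = 1 / (1 - β)) (f : ℤ → ℝ)
    (hf : Summable fun n => |f (n + 1) - f n|) (hM : ∃ n, BddAbove (Set.range (avg β f n))) :
    (∀ n, BddAbove (Set.range (avg β f n))) ∧ (Summable fun n => |M β f (n + 1) - M β f n| ^ q) ∧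
      (∑' n, |M β f (n + 1) - M β f n| ^ q) ^ (1 / q) ≤
        252 * (1 + 2 / β) / (1 - 2 ^ (-β)) * ∑' n, |f (n + 1) - f n| := by
  obtain ⟨n, hn⟩ := hM
  rw [avg_eq] at hn
  have hb := bdd h0 (fun k => abs_nonneg (f k)) hn
  have key := main h0 h1 hq (fun k => abs_nonneg (f k)) (V := ∑' n, |f (n + 1) - f n|)
    (fun F => (sum_le_sum fun k _ => abs_abs_sub_abs_le_abs_sub _ _).trans
      (hf.sum_le_tsum F fun k _ => abs_nonneg _)) hb (M β f) fun m => by rw [M, avg_eq]
  have c0 : (0 : ℝ) < 1 - 2 ^ (-β) := sub_pos.2 (Real.rpow_lt_one_of_one_lt_of_neg (by norm_num) (by linarith))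
  have q0 : 0 < q := by rw [hq]; exact one_div_pos.2 (by linarith)
  have V0 : 0 ≤ ∑' n, |f (n + 1) - f n| := tsum_nonneg fun _ => abs_nonneg _
  refine ⟨fun m => by rw [avg_eq]; exact hb m, summable_of_sum_le (fun m => by positivity) key, ?_⟩
  refine (Real.rpow_le_rpow (tsum_nonneg fun m => by positivity)
    (Real.tsum_le_of_sum_le (fun m => by positivity) key) (by positivity)).trans_eq ?_
  rw [one_div, Real.rpow_rpow_inv (by positivity) q0.ne']

end Pool.Agent.Results.MP_f9323a_an.Yes
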